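import Pool.Agent.H982R3.Final2

/-!
Evaluation of power series at the critical point `1 / μ`.
-/

set_option linter.unusedSectionVars false

namespace Pool.Agent.K1H3.SW

open H982
open scoped ENNReal
open PowerSeries

variable [L : H982.Lat]

/-- evaluation of a power series at `z` -/
noncomputable def ev (z : ℝ≥0∞) (f : PS) : ℝ≥0∞ := ∑' n, coeff n f * z ^ n

omit L in
lemma ev_mono {z : ℝ≥0∞} {f g : PS} (h : f ≤ g) : ev z f ≤ ev z g :=
  ENNReal.tsum_le_tsum fun n => mul_le_mul' (h n) le_rfl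

omit L in
lemma ev_zero (z : ℝ≥0∞) : ev z 0 = 0 := by simp [ev]

omit L in
lemma ev_add (z : ℝ≥0∞) (f g : PS) : ev z (f + g) = ev z f + ev z g := by
  unfold ev
  rw [← ENNReal.tsum_add]
  exact tsum_congr fun n => by rw [map_add, add_mul]

omit L in
lemma ev_cst_mul (z a : ℝ≥0∞) (f : PS) : ev z (cst a * f) = a * ev z f := by
  unfold ev
  rw [← ENNReal.tsum_mul_left]
  exact tsum_congr fun n => by rw [coeff_cst_mul, mul_assoc]

omit L in
lemma ev_one (z : ℝ≥0∞) : ev z 1 = 1 := by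
  unfold ev
  rw [tsum_eq_single 0]
  · simp
  · intro n hn
    rw [PowerSeries.coeff_one, if_neg hn, zero_mul]

omit L in
lemma ev_cst (z a : ℝ≥0∞) : ev z (cst a) = a := by
  have := ev_cst_mul z a 1
  rwa [mul_one, ev_one, mul_one] at this

omit L in
lemma ev_fs {ι : Type*} (z : ℝ≥0∞) (F : ι → PS) : ev z (fs F) = ∑' i, ev z (F i) := by
  unfold ev
  rw [ENNReal.tsum_comm]
  refine tsum_congr fun n => ?_
  rw [coeff_fs, ENNReal.tsum_mul_right]

omit L in
lemma ev_mul (z : ℝ≥0∞) (f g : PS) : ev z (f * g) = ev z f * ev z g := by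
  classical
  have h1 : ev z (f * g) = ∑' n, ∑ p ∈ Finset.HasAntidiagonal.antidiagonal n,
      (coeff p.1 f * z ^ p.1) * (coeff p.2 g * z ^ p.2) := by
    refine tsum_congr fun n => ?_
    rw [PowerSeries.coeff_mul, Finset.sum_mul]
    refine Finset.sum_congr rfl fun p hp => ?_
    rw [Finset.HasAntidiagonal.mem_antidiagonal] at hp
    rw [← hp, pow_add]
    ring
  have h2 : ev z f * ev z g = ∑' p : ℕ × ℕ, (coeff p.1 f * z ^ p.1) * (coeff p.2 g * z ^ p.2) := by
    unfold ev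
    rw [tsum_mul_tsum']
  rw [h1, h2, ← (Finset.HasAntidiagonal.sigmaAntidiagonalEquivProd (A := ℕ)).tsum_eq,
    ENNReal.tsum_sigma']
  refine tsum_congr fun n => ?_
  rw [tsum_fintype]
  simp only [Finset.HasAntidiagonal.sigmaAntidiagonalEquivProd_apply]
  exact (Finset.sum_coe_sort (Finset.HasAntidiagonal.antidiagonal n)
    (fun p => (coeff p.1 f * z ^ p.1) * (coeff p.2 g * z ^ p.2))).symm

omit L in
lemma ev_sum {ι : Type*} (z : ℝ≥0∞) (s : Finset ι) (f : ι → PS) :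
    ev z (∑ i ∈ s, f i) = ∑ i ∈ s, ev z (f i) := by
  classical
  induction s using Finset.induction_on with
  | empty => simp [ev_zero]
  | insert a s ha ih => rw [Finset.sum_insert ha, Finset.sum_insert ha, ev_add, ih]

omit L in
lemma ev_prod {ι : Type*} (z : ℝ≥0∞) (s : Finset ι) (f : ι → PS) :
    ev z (∏ i ∈ s, f i) = ∏ i ∈ s, ev z (f i) := by
  classical
  induction s using Finset.induction_on with
  | empty => simp [ev_one]
  | insert a s ha ih => rw [Finset.prod_insert ha, Finset.prod_insert ha, ev_mul, ih]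

omit L in
lemma ev_xl (z : ℝ≥0∞) (w : List St) : ev z (xl w) = z ^ w.length := by
  unfold ev
  rw [tsum_eq_single w.length]
  · rw [coeff_xl, ind_of rfl, one_mul]
  · intro n hn
    rw [coeff_xl, ind_not (fun h => hn h.symm), zero_mul]

omit L in
lemma ev_ii_mul (z : ℝ≥0∞) (p : Prop) (f : PS) : ev z (ii p * f) = ind p * ev z f :=
  ev_cst_mul z _ f

omit L in
lemma coeff_mul_pow_le_ev (z : ℝ≥0∞) (f : PS) (n : ℕ) : coeff n f * z ^ n ≤ ev z f :=
  ENNReal.le_tsum (f := fun n => coeff n f * z ^ n) n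

/-- the critical point -/
noncomputable def zc : ℝ≥0∞ := ENNReal.ofReal (mu⁻¹)

/-- smaller points -/
noncomputable def zt (t : ℝ) : ℝ≥0∞ := ENNReal.ofReal (t * mu⁻¹)

lemma zc_ne_top : zc ≠ ⊤ := ENNReal.ofReal_ne_top

lemma zc_pos : 0 < zc := ENNReal.ofReal_pos.mpr (inv_pos.mpr mu_pos)

lemma bn_le_mu (n : ℕ) : bn n ≤ ENNReal.ofReal (mu ^ n) := by
  rw [← ofReal_br']
  exact ENNReal.ofReal_le_ofReal (br'_le n)

lemma ev_Bs_ne_top {t : ℝ} (h0 : 0 ≤ t) (h1 : t < 1) : ev (zt t) Bs ≠ ⊤ := by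
  have h2 : ev (zt t) Bs ≤ ∑' n : ℕ, ENNReal.ofReal (t ^ n) := by
    refine ENNReal.tsum_le_tsum fun n => ?_
    calc coeff n Bs * zt t ^ n ≤ ENNReal.ofReal (mu ^ n) * ENNReal.ofReal ((t * mu⁻¹) ^ n) := by
          refine mul_le_mul' (bn_le_mu n) (le_of_eq ?_)
          unfold zt
          rw [ENNReal.ofReal_pow (mul_nonneg h0 (inv_nonneg.mpr mu_pos.le))]
      _ = ENNReal.ofReal (t ^ n) := by
          rw [← ENNReal.ofReal_mul (pow_nonneg mu_pos.le n), ← mul_pow]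
          congr 2
          field_simp [mu_pos.ne']
  refine ne_top_of_le_ne_top ?_ h2
  rw [← ENNReal.ofReal_tsum_of_nonneg (fun n => pow_nonneg h0 n)
    (summable_geometric_of_lt_one h0 h1)]
  exact ENNReal.ofReal_ne_top

lemma one_le_ev_Bs (z : ℝ≥0∞) : 1 ≤ ev z Bs := by
  have := ev_mono (z := z) one_le_Bs
  rwa [ev_one] at this

/-- a bound in norm gives a bound at the subcritical points -/
lemma ev_le_of_Nm_sub {c : ℝ≥0∞} {f : PS} (h : Nm c f) {t : ℝ} (h0 : 0 ≤ t) (h1 : t < 1) :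
    ev (zt t) f ≤ c := by
  have h2 := ev_mono (z := zt t) h
  rw [ev_mul, ev_cst_mul] at h2
  have h3 : ev (zt t) Bs ≠ 0 := (lt_of_lt_of_le zero_lt_one (one_le_ev_Bs _)).ne'
  exact (ENNReal.mul_le_mul_iff_left h3 (ev_Bs_ne_top h0 h1)).mp h2

/-- a bound in norm gives a bound at the critical point -/
theorem ev_le_of_Nm {c : ℝ≥0∞} {f : PS} (h : Nm c f) : ev zc f ≤ c := by
  unfold ev
  rw [ENNReal.tsum_eq_iSup_sum]
  refine iSup_le fun s => ?_
  have h1 : ∀ t : ℝ, 0 ≤ t → t < 1 → ∑ n ∈ s, coeff n f * zt t ^ n ≤ c := fun t h0 h1 =>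
    (ENNReal.sum_le_tsum s).trans (ev_le_of_Nm_sub h h0 h1)
  -- limit `t → 1`
  have h2 : Filter.Tendsto (fun t : ℝ => zt t) (nhdsWithin 1 (Set.Iio 1)) (nhds zc) := by
    have h3 : Filter.Tendsto (fun t : ℝ => ENNReal.ofReal (t * mu⁻¹)) (nhds 1)
        (nhds (ENNReal.ofReal (1 * mu⁻¹))) :=
      (ENNReal.continuous_ofReal.comp (continuous_id.mul continuous_const)).tendsto 1
    rw [one_mul] at h3
    exact h3.mono_left nhdsWithin_le_nhds
  have h4 : Filter.Tendsto (fun t : ℝ => ∑ n ∈ s, coeff n f * zt t ^ n)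
      (nhdsWithin 1 (Set.Iio 1)) (nhds (∑ n ∈ s, coeff n f * zc ^ n)) := by
    refine tendsto_finsetSum s fun n _ => ?_
    exact ENNReal.Tendsto.const_mul (ENNReal.Tendsto.pow h2)
      (Or.inl (pow_ne_zero n zc_pos.ne'))
  refine le_of_tendsto h4 ?_
  have h5 : Set.Ioo (0 : ℝ) 1 ∈ nhdsWithin (1 : ℝ) (Set.Iio 1) := Ioo_mem_nhdsLT one_pos
  filter_upwards [h5] with t ht
  exact h1 t ht.1.le ht.2

/-- mass at the critical point of a set of words -/
noncomputable def ms (P : List St → Prop) : ℝ≥0∞ := ∑' w : List St, ind (P w) * zc ^ w.length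

lemma ev_fs_ii (P : List St → Prop) : ev zc (fs fun w => ii (P w) * xl w) = ms P := by
  rw [ev_fs]
  exact tsum_congr fun w => by rw [ev_ii_mul, ev_xl]

end Pool.Agent.K1H3.SW
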