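import Pool.Agent.K1H3.SW.Ev
import Pool.Agent.H982R3.Chain

/-!
From bounds at the critical point for the chains at the dyadic scales to a bound of the number of
self-avoiding walks.
-/

set_option linter.unusedSectionVars false

namespace Pool.Agent.K1H3.SW

open H982
open scoped ENNReal
open PowerSeries

variable [L : H982.Lat]

lemma le_of_coeff_zc {n : ℕ} {a c : ℝ≥0∞} (h : a * zc ^ n ≤ c) :
    a ≤ c * ENNReal.ofReal (mu ^ n) := by
  have h1 : zc ^ n * ENNReal.ofReal (mu ^ n) = 1 := by
    unfold zc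
    rw [← ENNReal.ofReal_pow (inv_nonneg.mpr mu_pos.le),
      ← ENNReal.ofReal_mul (pow_nonneg (inv_nonneg.mpr mu_pos.le) n), ← mul_pow,
      inv_mul_cancel₀ mu_pos.ne', one_pow, ENNReal.ofReal_one]
  calc a = a * zc ^ n * ENNReal.ofReal (mu ^ n) := by rw [mul_assoc, h1, mul_one]
    _ ≤ _ := mul_le_mul' h le_rfl

/-- half-plane words, from bounds at the dyadic scales -/
theorem hh_le_zc (F : ℕ → ℝ) (h : ∀ i, ev zc (Rr (2 ^ i) (2 ^ i) []) ≤
    ENNReal.ofReal (Real.exp (F i))) {N M : ℕ} (hN : N ≠ 0) (hM : N ≤ 2 ^ M - 1) :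
    hh N ≤ ENNReal.ofReal (Real.exp (∑ i ∈ Finset.range M, F i)) *
      ENNReal.ofReal (mu ^ N) := by
  have h1 : ev zc (Rr 1 (2 ^ M - 1) []) ≤
      ENNReal.ofReal (Real.exp (∑ i ∈ Finset.range M, F i)) := by
    calc ev zc (Rr 1 (2 ^ M - 1) []) ≤ ev zc (∏ i ∈ Finset.range M, Rr (2 ^ i) (2 ^ i) []) :=
          ev_mono (Rr_prod M)
      _ = ∏ i ∈ Finset.range M, ev zc (Rr (2 ^ i) (2 ^ i) []) := ev_prod _ _ _
      _ ≤ ∏ i ∈ Finset.range M, ENNReal.ofReal (Real.exp (F i)) :=
          Finset.prod_le_prod' fun i _ => h i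
      _ = _ := by
          rw [← ENNReal.ofReal_prod_of_nonneg (fun i _ => (Real.exp_pos _).le), ← Real.exp_sum]
  refine le_of_coeff_zc ?_
  calc hh N * zc ^ N ≤ coeff N (Rr 1 (2 ^ M - 1) []) * zc ^ N := by
        refine mul_le_mul' ?_ le_rfl
        exact (hh_le_coeff hN).trans (Rr_mono 1 hM [] N)
    _ ≤ ev zc (Rr 1 (2 ^ M - 1) []) := coeff_mul_pow_le_ev _ _ _
    _ ≤ _ := h1

/-- self-avoiding words, from bounds at the dyadic scales -/
theorem cr'_le_zc (F : ℕ → ℝ) (hF : ∀ i, 0 ≤ F i)
    (h : ∀ i, ev zc (Rr (2 ^ i) (2 ^ i) []) ≤ ENNReal.ofReal (Real.exp (F i)))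
    {N M : ℕ} (hM : N + 1 ≤ 2 ^ M - 1) :
    cr' N ≤ (N + 1) * mu * Real.exp (2 * ∑ i ∈ Finset.range M, F i) * mu ^ N := by
  set A : ℝ := Real.exp (∑ i ∈ Finset.range M, F i) with hA
  have hA1 : 1 ≤ A := Real.one_le_exp (Finset.sum_nonneg fun i _ => hF i)
  have hA0 : 0 ≤ A := by linarith
  have hmu0 := mu_pos.le
  have key : ∀ k, k ≤ N + 1 → hh k ≤ ENNReal.ofReal (A * mu ^ k) := by
    intro k hk
    rcases Nat.eq_zero_or_pos k with rfl | hk0
    · refine hh_zero_le.trans ?_
      rw [pow_zero, mul_one, ← ENNReal.ofReal_one]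
      exact ENNReal.ofReal_le_ofReal hA1
    · rw [ENNReal.ofReal_mul hA0]
      exact hh_le_zc F h (by omega) (by omega)
  have h1 : cc N ≤ ENNReal.ofReal ((N + 1) * mu * Real.exp (2 * ∑ i ∈ Finset.range M, F i) *
      mu ^ N) := by
    refine (cc_le N).trans ?_
    calc ∑ k ∈ Finset.range (N + 1), hh (k + 1) * hh (N - k)
        ≤ ∑ k ∈ Finset.range (N + 1), ENNReal.ofReal (A * A * mu ^ (N + 1)) := by
          refine Finset.sum_le_sum fun k hk => ?_
          rw [Finset.mem_range] at hk
          calc hh (k + 1) * hh (N - k) ≤ ENNReal.ofReal (A * mu ^ (k + 1)) *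
                ENNReal.ofReal (A * mu ^ (N - k)) :=
                mul_le_mul' (key _ (by omega)) (key _ (by omega))
            _ = _ := by
                rw [← ENNReal.ofReal_mul (mul_nonneg hA0 (pow_nonneg hmu0 _))]
                congr 1
                have : N + 1 = (k + 1) + (N - k) := by omega
                rw [this, pow_add]
                ring
      _ = ENNReal.ofReal ((N + 1) * (A * A * mu ^ (N + 1))) := by
          rw [Finset.sum_const, Finset.card_range, nsmul_eq_mul,
            ENNReal.ofReal_mul (p := (N : ℝ) + 1) (by positivity)]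
          congr 1
          rw [← ENNReal.ofReal_natCast]
          push_cast
          rfl
      _ = _ := by
          congr 1
          rw [two_mul, Real.exp_add, ← hA, pow_succ]
          ring
  have h2 := ENNReal.toReal_mono ENNReal.ofReal_ne_top h1
  rwa [ENNReal.toReal_ofReal (by positivity)] at h2

/-- **polynomial bound**, from a uniform bound at the dyadic scales -/
theorem poly_of_scales (C : ℝ) (h : ∀ i, ev zc (Rr (2 ^ i) (2 ^ i) []) ≤ ENNReal.ofReal C) :
    ∃ K : ℝ, 0 ≤ K ∧ ∀ N : ℕ, 2 ≤ N → cr' N ≤ mu ^ N * (N : ℝ) ^ K := by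
  set c : ℝ := max 0 (Real.log (max 1 C)) with hc
  have hc0 : 0 ≤ c := le_max_left _ _
  have h' : ∀ i, ev zc (Rr (2 ^ i) (2 ^ i) []) ≤ ENNReal.ofReal (Real.exp ((fun _ => c) i)) := by
    intro i
    refine (h i).trans (ENNReal.ofReal_le_ofReal ?_)
    have h1 : (0 : ℝ) < max 1 C := lt_of_lt_of_le one_pos (le_max_left _ _)
    calc C ≤ max 1 C := le_max_right _ _
      _ = Real.exp (Real.log (max 1 C)) := (Real.exp_log h1).symm
      _ ≤ _ := Real.exp_le_exp.mpr (le_max_right _ _)
  have hmu1 := one_le_mu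
  refine ⟨2 + (Real.log mu + 6 * c + 2) / Real.log 2, ?_, fun N hN => ?_⟩
  · have : 0 < Real.log 2 := Real.log_pos (by norm_num)
    have := Real.log_nonneg hmu1
    positivity
  · have hNr : (2 : ℝ) ≤ N := by exact_mod_cast hN
    have hl2 : 0 < Real.log 2 := Real.log_pos (by norm_num)
    have hlN : Real.log 2 ≤ Real.log N := Real.log_le_log (by norm_num) hNr
    have hlN0 : 0 < Real.log N := by linarith
    obtain ⟨M, hMdef⟩ : ∃ M, M = Nat.log 2 N + 2 := ⟨_, rfl⟩
    have hM1 : N + 1 ≤ 2 ^ M - 1 := by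
      have h2 : N < 2 ^ (Nat.log 2 N + 1) := Nat.lt_pow_succ_log_self (by norm_num) N
      have h3 : 2 ^ M = 2 * 2 ^ (Nat.log 2 N + 1) := by rw [hMdef, pow_succ]; ring
      omega
    have h1 := cr'_le_zc (fun _ => c) (fun _ => hc0) h' hM1
    have hM3 : (M : ℝ) * Real.log 2 ≤ 3 * Real.log N := by
      have h2 : ((Nat.log 2 N : ℕ) : ℝ) * Real.log 2 ≤ Real.log N := by
        rw [← Real.log_pow]
        apply Real.log_le_log (by positivity)
        exact_mod_cast Nat.pow_log_le_self 2 (by omega : N ≠ 0)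
      rw [hMdef]
      push_cast
      nlinarith
    rw [Finset.sum_const, Finset.card_range, nsmul_eq_mul] at h1
    refine h1.trans ?_
    rw [mul_comm (mu ^ N)]
    refine mul_le_mul_of_nonneg_right ?_ (pow_nonneg mu_pos.le N)
    have hN0 : (0 : ℝ) < N := by linarith
    rw [Real.rpow_def_of_pos hN0]
    have e1 : (N : ℝ) + 1 ≤ Real.exp (2 * Real.log N) := by
      have : Real.exp (2 * Real.log N) = (N : ℝ) * N := by
        rw [two_mul, Real.exp_add, Real.exp_log hN0]
      rw [this]
      nlinarith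
    have e2 : mu = Real.exp (Real.log mu) := (Real.exp_log mu_pos).symm
    have e3 : Real.log mu ≤ Real.log mu / Real.log 2 * Real.log N := by
      rw [div_mul_eq_mul_div, le_div_iff₀ hl2]
      have := Real.log_nonneg hmu1
      nlinarith
    have e4 : (M : ℝ) ≤ 3 * Real.log N / Real.log 2 := by
      rw [le_div_iff₀ hl2]; exact hM3
    calc ((N : ℝ) + 1) * mu * Real.exp (2 * (M * c))
        ≤ Real.exp (2 * Real.log N) * Real.exp (Real.log mu) * Real.exp (2 * (M * c)) := by
          rw [← e2]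
          gcongr
      _ = Real.exp (2 * Real.log N + Real.log mu + 2 * (M * c)) := by
          rw [Real.exp_add, Real.exp_add]
      _ ≤ _ := by
          apply Real.exp_le_exp.mpr
          have e5 : (M : ℝ) * c ≤ 3 * Real.log N / Real.log 2 * c :=
            mul_le_mul_of_nonneg_right e4 hc0
          have e6 : Real.log N * (2 + (Real.log mu + 6 * c + 2) / Real.log 2) =
              2 * Real.log N + Real.log mu / Real.log 2 * Real.log N +
              2 * (3 * Real.log N / Real.log 2 * c) + 2 * Real.log N / Real.log 2 := by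
            field_simp
            ring
          rw [e6]
          have : 0 ≤ 2 * Real.log N / Real.log 2 := by positivity
          linarith

end Pool.Agent.K1H3.SW
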