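import Pool.Agent.K1H3.SW.Stm

/-!
# Notes on the near-polynomial bound for self-avoiding walks (unfinished project)

Everything is evaluated at `z_c = 1 / μ` (files `Ev`, `Num`, `Scale`, `Fin` of this folder are
complete).  `U_j = U (2 ^ j)`.  A strand of scale `j` is a bridge with width in `[16 n, 32 n)`,
`n = 2 ^ j`.

Why the scales must be coupled: the sum over the chains of one scale `q` contains the chains with
one strand, whose mass is `U (2 q) - U q`; so the product over the scales of the one-scale sums is
`exp (c log^2 n)` again.  The fold to the previous, wider strand gives the missing factor `1 / U_j`.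

Recursion (reduction to the five sums of `FoldSums`).  Let `S k l` be the sum over all chains of
widths at most `k` following a strand ending with `l` (relation `Rel`), `H j k l` the part whose
first strand has scale `j` and width at most `k`, `g_j (k) = 2 ^ 15 + sum_(i < j) nrm_i (H i) +
nrm_j (H j k)`.
* cut lemma (`S_CUT`): average over marks `m` in `[n_j, 2 n_j)` from the beginning and `m'` in
  `[n_i, 2 n_i)` from the end of the strand (`i` = scale of the next strand).  If different
  irreducible pieces cover the two marks, the strand is `y ι M ι' x` with `M` free (mass
  `≤ 32 U_j`); a narrow `ι` costs `K / n ≤ 3 / U`, a wide `ι` with `wd y < t_j` is kept.  If one piece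
  `κ` covers both marks it has width at least `12 n_j`; it is dropped if both ends are at least `t`,
  attached to the short side if exactly one end is short, and the strand is uncuttable (`UC`) if both
  are short.
* claim 1': `H i k l ≤ C (phi_i l + eF_i l) g_i (k - 1)` for all `l` (cut the uncuttable strands after
  their beginning, `S_DEC`).
* claim 1: `H j k l ≤ C (phi_j l + psi_j l) g_j (k - 1)` for all `l` (keep the first uncuttable strand,
  then claim 1').  No induction is used.
* claim 2: `nrm_j (H j k) ≤ base_j + sum_(l ≤ k) a_l g_j (l - 1)` with
  `a_l = nrm_j (sum over b of width exactly l following) C (phi_j + psi_j) (b)`; by the cut lemma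
  `sum a_l ≤ C (nrm_j phi_j * nrm_j (phi_j + psi_j) + nrm_j (uU j j (phi_j + psi_j)))`; Gronwall.
* hence `g_j ≤ exp (C (1 + s_j)) * sum_(i < j) g_i`, and half-plane walks of length `n` are at most
  `mu ^ n exp (C (log n + sum_j s_j))`.
With `C = (log log N) ^ k`, `t_j` the largest number with `U (64 t_j) ≤ (log N) ^ (-8) U_j`, this is
`c_n ≤ mu ^ n exp (K log n (log log n) ^ k')`.

The five sums.
* `BB`: for `X` of width in `[a, 2 a)` and `Y` of width in `[b, 2 b)`, `b ≥ a`, the matching lemma of
  `W387.S.Mat` gives at most the mass of the bridges of width `< 4 b` with a renewal level in
  `[a, 2 a)` (the matched bridges are adjacent to a folded walk), i.e. `p_a U (4 b)` with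
  `p_a ≤ (U (3 a) - U (a - 1)) / U a`; sum over dyadic `a ≥ t`: `C (1 + log (U_n / U_t)) U_n`.
* `SS`: the same sum over all `a < t`: `C (1 + log U_t) U_t`.
* `WB`, `BW`, `BUB`: a wide piece `κ` whose end has distance `< t` from the fold.  If no excursion of
  `κ` which goes deeper than the end of the next strand comes back within `16 t` of the fold, the
  T-moves of scale `t` are allowed with `κ` kept (helper36, helper21, helper95, lead); otherwise
  `κ x = A | M | x'` with `wd x' - wd M` in `(0, 16 t)`: one strand is prescribed up to `16 t`, which
  gives a factor `U (16 t) / U_n`, smaller than all the logarithms lost by dropping.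

For the polynomial bound (`t_j` with an absolute constant instead of `(log N) ^ (-8)`) the folds with
both sides short have to be treated with the wide pieces kept, and the walls at cross-scale folds need
the factor `lam (scale Q) U_Q` for a strand of scale exactly `Q`.
-/
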