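import Pool.Agent.K1H3.SW.Ev

/-!
Renewal numbers at the critical point: bridges `B l`, `U W`, irreducible bridges, first passage.
-/

set_option linter.unusedSectionVars false

namespace Pool.Agent.K1H3.SW

open H982
open scoped ENNReal
open PowerSeries

variable [L : H982.Lat]

abbrev LL := List St × List St

/-- prefix codes of bridges have mass at most one -/
theorem Nm_code {α : Type*} (P : α → Prop) (f : α → List St) (hf : ∀ a, P a → IsB (f a))
    (key : ∀ a a' Y Y', P a → P a' → IsB Y → IsB Y' → f a ++ Y = f a' ++ Y' → a = a') :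
    Nm 1 (fs (fun a => ii (P a) * xl (f a))) := by
  unfold Nm
  rw [cst_one, one_mul]
  have h1 : fs (fun a => ii (P a) * xl (f a)) * Bs =
      fs (fun q : α × List St => ii (P q.1 ∧ IsB q.2) * xl (f q.1 ++ q.2)) := by
    unfold Bs
    rw [fs_mul_fs]
    apply fs_congr
    intro q
    rw [ii_and, xl_append]; ring
  rw [h1]
  unfold Bs
  refine fs_inj _ _ _ _ (fun q : α × List St => f q.1 ++ q.2) ?_ ?_ ?_
  · rintro ⟨a, Y⟩ ⟨a', Y'⟩ ⟨h2, h3⟩ ⟨h4, h5⟩ h6
    simp only at h2 h3 h4 h5 h6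
    have h7 := key a a' Y Y' h2 h4 h3 h5 h6
    subst h7
    rw [List.append_cancel_left h6]
  · rintro ⟨a, Y⟩ ⟨h2, h3⟩
    exact (hf a h2).append h3
  · intro q _
    exact le_rfl

/-- mass of a family of words -/
noncomputable def mf {α : Type*} (P : α → Prop) (f : α → List St) : ℝ≥0∞ :=
  ∑' a, ind (P a) * zc ^ (f a).length

lemma ev_fs_mf {α : Type*} (P : α → Prop) (f : α → List St) :
    ev zc (fs fun a => ii (P a) * xl (f a)) = mf P f := by
  rw [ev_fs]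
  exact tsum_congr fun w => by rw [ev_ii_mul, ev_xl]

theorem mf_code {α : Type*} (P : α → Prop) (f : α → List St) (hf : ∀ a, P a → IsB (f a))
    (key : ∀ a a' Y Y', P a → P a' → IsB Y → IsB Y' → f a ++ Y = f a' ++ Y' → a = a') :
    mf P f ≤ 1 := by
  rw [← ev_fs_mf]
  exact ev_le_of_Nm (Nm_code P f hf key)

lemma mf_id (P : List St → Prop) : mf P id = ms P := rfl

lemma ms_mono {P Q : List St → Prop} (h : ∀ w, P w → Q w) : ms P ≤ ms Q :=
  ENNReal.tsum_le_tsum fun w => mul_le_mul' (ind_mono (h w)) le_rfl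

lemma mf_mono {α : Type*} {P Q : α → Prop} {f : α → List St} (h : ∀ w, P w → Q w) :
    mf P f ≤ mf Q f :=
  ENNReal.tsum_le_tsum fun w => mul_le_mul' (ind_mono (h w)) le_rfl

lemma mf_mul {α β : Type*} (P : α → Prop) (f : α → List St) (Q : β → Prop) (g : β → List St) :
    mf P f * mf Q g = mf (fun p : α × β => P p.1 ∧ Q p.2) (fun p => f p.1 ++ g p.2) := by
  unfold mf
  rw [tsum_mul_tsum' (fun a => ind (P a) * zc ^ (f a).length)
    (fun b => ind (Q b) * zc ^ (g b).length)]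
  refine tsum_congr fun p => ?_
  rw [ind_and, List.length_append, pow_add]
  ring

/-- comparison of masses by an injection preserving the length -/
lemma mf_inj {α β : Type*} {P : α → Prop} {f : α → List St} {Q : β → Prop} {g : β → List St}
    (φ : α → β) (hinj : ∀ a b, P a → P b → φ a = φ b → a = b) (hQ : ∀ a, P a → Q (φ a))
    (hg : ∀ a, P a → (g (φ a)).length = (f a).length) : mf P f ≤ mf Q g :=
  tsum_inj P Q _ _ φ hinj hQ (fun a ha => by rw [hg a ha])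

/-- comparison of masses by a covering map -/
lemma mf_cover {α β : Type*} {P : α → Prop} {f : α → List St} {Q : β → Prop} {g : β → List St}
    (π : β → α) (hc : ∀ a, P a → ∃ b, Q b ∧ π b = a ∧ (g b).length = (f a).length) :
    mf P f ≤ mf Q g :=
  tsum_cover P Q _ _ π (fun a ha => by
    obtain ⟨b, h1, h2, h3⟩ := hc a ha
    exact ⟨b, h1, h2, by rw [h3]⟩)

/-- bridges of width `l` -/
noncomputable def B (l : ℕ) : ℝ≥0∞ := ms (IsBr l)

/-- bridges of width at most `W` -/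
noncomputable def U (W : ℕ) : ℝ≥0∞ := ms (fun w => IsB w ∧ wd w ≤ W)

/-- irreducible bridges of width `l` -/
noncomputable def lam (l : ℕ) : ℝ≥0∞ := ms (fun w => Irr w ∧ wd w = l)

/-- irreducible bridges of width at least `W` -/
noncomputable def Lam (W : ℕ) : ℝ≥0∞ := ms (fun w => Irr w ∧ W ≤ wd w)

/-- bridges with width in `[a, b)` -/
noncomputable def Uw (a b : ℕ) : ℝ≥0∞ := ms (fun w => IsB w ∧ a ≤ wd w ∧ wd w < b)

theorem B_le_one (l : ℕ) : B l ≤ 1 := by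
  unfold B
  rw [← mf_id]
  refine mf_code _ _ (fun a h => h.isB) ?_
  intro a a' Y Y' h1 h2 h3 h4 h5
  have s1 : Spl l (a ++ Y) a Y := ⟨rfl, h1, h3⟩
  have s2 : Spl l (a ++ Y) a' Y' := ⟨h5, h2, h4⟩
  exact (s1.unique s2).1

/-- the first passage over the level `m` -/
theorem passage_le_one (m : ℕ) : mf (fun p : LL => (IsB p.1 ∧ Irr p.2) ∧
    wd p.1 ≤ m ∧ m < wd p.1 + wd p.2) (fun p => p.1 ++ p.2) ≤ 1 := by
  refine mf_code _ _ (fun a h => h.1.1.append h.1.2.1) ?_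
  rintro ⟨X, ι⟩ ⟨X', ι'⟩ Y Y' ⟨⟨h1, h2⟩, h3, h4⟩ ⟨⟨h5, h6⟩, h7, h8⟩ h9 h10 h11
  simp only at h1 h2 h3 h4 h5 h6 h7 h8 h11
  rw [List.append_assoc, List.append_assoc] at h11
  obtain ⟨e1, e2, -⟩ := triple_unique h1 h2 h9 h5 h6 h10 h11 h3 h4 h7 h8
  rw [e1, e2]

theorem U_Lam (q : ℕ) : U q * Lam (q + 1) ≤ 1 := by
  unfold U Lam
  rw [← mf_id, ← mf_id, mf_mul]
  refine le_trans (mf_mono ?_) (passage_le_one q)
  rintro ⟨X, ι⟩ ⟨⟨h1, h2⟩, h3, h4⟩
  simp only at h1 h2 h3 h4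
  exact ⟨⟨h1, h3⟩, h2, by simp only; omega⟩

theorem U_K (W : ℕ) : ev zc (Ks W) * U W ≤ (2 * W : ℕ) := by
  have h := ev_le_of_Nm (Nm_KU W)
  rw [ev_mul] at h
  have e : ev zc (Us W) = U W := ev_fs_ii _
  rwa [e] at h

theorem U_le (W : ℕ) : U W ≤ (W + 1 : ℕ) := by
  have h := ev_le_of_Nm (Nm_U W)
  have e : ev zc (Us W) = U W := ev_fs_ii _
  rwa [e] at h

theorem U_ne_top (W : ℕ) : U W ≠ ⊤ := ne_top_of_le_ne_top (ENNReal.natCast_ne_top _) (U_le W)

theorem one_le_U (W : ℕ) : 1 ≤ U W := by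
  unfold U ms
  calc (1 : ℝ≥0∞) = ind (IsB [] ∧ wd [] ≤ W) * zc ^ ([] : List St).length := by
        rw [ind_of ⟨isB_nil, by simp [wd]⟩]; simp
    _ ≤ _ := ENNReal.le_tsum (f := fun w : List St => ind (IsB w ∧ wd w ≤ W) * zc ^ w.length) []

theorem U_mono {a b : ℕ} (h : a ≤ b) : U a ≤ U b := ms_mono fun _ h' => ⟨h'.1, h'.2.trans h⟩

theorem Uw_le_U {a b : ℕ} : Uw a (b + 1) ≤ U b :=
  ms_mono fun _ h' => ⟨h'.1, by omega⟩

/-- bridges with width in a window of length `k + 1` -/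
theorem Uw_window (a k : ℕ) : Uw a (a + k + 1) ≤ U k := by
  rcases Nat.eq_zero_or_pos a with rfl | ha
  · rw [zero_add]; exact Uw_le_U
  calc Uw a (a + k + 1) ≤ mf (fun q : LL × List St => ((IsB q.1.1 ∧ Irr q.1.2) ∧
          wd q.1.1 ≤ a - 1 ∧ a - 1 < wd q.1.1 + wd q.1.2) ∧ (IsB q.2 ∧ wd q.2 ≤ k))
          (fun q => (q.1.1 ++ q.1.2) ++ q.2) := by
        unfold Uw
        rw [← mf_id]
        refine mf_cover (fun q => (q.1.1 ++ q.1.2) ++ q.2) ?_
        rintro w ⟨h1, h2, h3⟩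
        obtain ⟨X, ι, Y, rfl, hX, hι, hY, h4, h5⟩ := exists_triple h1.br (m := a - 1) (by omega)
        have h6 := wd_append hX (hι.1.append hY)
        have h7 := wd_append hι.1 hY
        refine ⟨((X, ι), Y), ⟨⟨⟨hX, hι⟩, h4, h5⟩, hY, ?_⟩, ?_, ?_⟩
        · simp only; omega
        · simp
        · simp
    _ = mf (fun p : LL => (IsB p.1 ∧ Irr p.2) ∧
          wd p.1 ≤ a - 1 ∧ a - 1 < wd p.1 + wd p.2) (fun p => p.1 ++ p.2) *
        mf (fun w => IsB w ∧ wd w ≤ k) id := by rw [mf_mul]; rfl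
    _ ≤ 1 * U k := mul_le_mul' (passage_le_one _) le_rfl
    _ = _ := one_mul _

lemma ms_split {P Q R : List St → Prop} (h : ∀ w, P w → Q w ∨ R w) : ms P ≤ ms Q + ms R := by
  unfold ms
  rw [← ENNReal.tsum_add]
  refine ENNReal.tsum_le_tsum fun w => ?_
  rw [← add_mul]
  refine mul_le_mul' ?_ le_rfl
  by_cases hP : P w
  · rcases h w hP with h1 | h1
    · rw [ind_of hP, ind_of h1]; exact le_self_add
    · rw [ind_of hP, ind_of h1]; exact le_add_self
  · rw [ind_not hP]; exact zero_le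

theorem U_add (a b : ℕ) : U (a + b) ≤ U a + U b := by
  rcases Nat.eq_zero_or_pos b with rfl | hb
  · exact le_self_add
  have h1 : U (a + b) ≤ U a + Uw (a + 1) (a + 1 + (b - 1) + 1) :=
    ms_split fun w h => by
      rcases le_or_gt (wd w) a with h1 | h1
      · exact Or.inl ⟨h.1, h1⟩
      · exact Or.inr ⟨h.1, h1, by have := h.2; omega⟩
  exact h1.trans (add_le_add le_rfl ((Uw_window _ _).trans (U_mono (by omega))))

theorem U_two (a : ℕ) : U (2 * a) ≤ 2 * U a := by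
  rw [two_mul, two_mul]; exact U_add a a

theorem U_mul (k a : ℕ) : U ((k + 1) * a) ≤ (k + 1 : ℕ) * U a := by
  induction k with
  | zero => simp
  | succ k ih =>
    calc U ((k + 1 + 1) * a) = U ((k + 1) * a + a) := by congr 1; ring
      _ ≤ U ((k + 1) * a) + U a := U_add _ _
      _ ≤ (k + 1 : ℕ) * U a + U a := by gcongr
      _ = _ := by push_cast; ring

/-- `q Lam_q`-free form: the size biased tail -/
theorem K_le (W : ℕ) (hW : 1 ≤ W) : ev zc (Ks W) * (W : ℝ≥0∞)⁻¹ ≤ 2 * (U W)⁻¹ := by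
  have h := U_K W
  have hU0 : U W ≠ 0 := (lt_of_lt_of_le zero_lt_one (one_le_U W)).ne'
  have hUt := U_ne_top W
  have hW0 : (W : ℝ≥0∞) ≠ 0 := by simp; omega
  have hWt : (W : ℝ≥0∞) ≠ ⊤ := ENNReal.natCast_ne_top W
  calc ev zc (Ks W) * (W : ℝ≥0∞)⁻¹
      = (ev zc (Ks W) * (U W * (U W)⁻¹)) * (W : ℝ≥0∞)⁻¹ := by
        rw [ENNReal.mul_inv_cancel hU0 hUt, mul_one]
    _ = (ev zc (Ks W) * U W) * ((U W)⁻¹ * (W : ℝ≥0∞)⁻¹) := by ring
    _ ≤ (2 * W : ℕ) * ((U W)⁻¹ * (W : ℝ≥0∞)⁻¹) := mul_le_mul' h le_rfl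
    _ = _ := by
        push_cast
        rw [mul_assoc, mul_left_comm (W : ℝ≥0∞), ENNReal.mul_inv_cancel hW0 hWt, mul_one]

end Pool.Agent.K1H3.SW
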