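import Pool.Agent.K1H3.SW.Num

/-!
Choice of the small scale, and the logarithmic sum.
-/

set_option linter.unusedSectionVars false

namespace Pool.Agent.K1H3.SW

open H982
open scoped ENNReal

variable [L : H982.Lat]

/-- mass of the bridges of width at most `W`, as a real -/
noncomputable def Ur (W : ℕ) : ℝ := (U W).toReal

lemma ofReal_Ur (W : ℕ) : ENNReal.ofReal (Ur W) = U W := ENNReal.ofReal_toReal (U_ne_top W)

lemma one_le_Ur (W : ℕ) : 1 ≤ Ur W := by
  have := ENNReal.toReal_mono (U_ne_top W) (one_le_U W)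
  simpa [Ur] using this

lemma Ur_pos (W : ℕ) : 0 < Ur W := by have := one_le_Ur W; linarith

lemma Ur_mono {a b : ℕ} (h : a ≤ b) : Ur a ≤ Ur b := ENNReal.toReal_mono (U_ne_top b) (U_mono h)

lemma Ur_mul (k a : ℕ) : Ur ((k + 1) * a) ≤ (k + 1 : ℕ) * Ur a := by
  have := ENNReal.toReal_mono (ENNReal.mul_ne_top (ENNReal.natCast_ne_top _) (U_ne_top a))
    (U_mul k a)
  rw [ENNReal.toReal_mul, ENNReal.toReal_natCast] at this
  exact this

lemma Ur_two (a : ℕ) : Ur (2 * a) ≤ 2 * Ur a := by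
  have := Ur_mul 1 a
  norm_num at this
  exact this

/-- **choice of the small scale**: either `U q` is bounded or there is `p ≥ 1` with
`U (m p) ≤ c U q ≤ 2 m U p` -/
theorem exists_scale (m : ℕ) (hm : 1 ≤ m) {c : ℝ} (hc1 : c < 1) (q : ℕ)
    (hq : Ur m ≤ c * Ur q) :
    ∃ p, 1 ≤ p ∧ p < q ∧ Ur (m * p) ≤ c * Ur q ∧ c * Ur q ≤ (2 * m : ℕ) * Ur p := by
  classical
  let Q : ℕ → Prop := fun x => Ur (m * x) ≤ c * Ur q
  have hQ1 : Q 1 := by
    change Ur (m * 1) ≤ _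
    rw [mul_one]; exact hq
  have hUq := Ur_pos q
  have hnot : ∀ x, q ≤ x → ¬ Q x := by
    intro x hx h
    have h1 : Ur q ≤ Ur (m * x) := Ur_mono (hx.trans (Nat.le_mul_of_pos_left x hm))
    have h2 : Ur (m * x) ≤ c * Ur q := h
    nlinarith
  set p := Nat.findGreatest Q q with hp
  have h1q : 1 ≤ q := by
    by_contra h
    exact hnot 1 (by omega) hQ1
  have hQp : Q p := Nat.findGreatest_spec (P := Q) h1q hQ1
  have hp1 : 1 ≤ p := Nat.le_findGreatest h1q hQ1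
  have hpq : p < q := by
    by_contra h
    exact hnot p (by omega) hQp
  refine ⟨p, hp1, hpq, hQp, ?_⟩
  have h2 : ¬ Q (p + 1) := by
    intro h
    have := Nat.le_findGreatest (P := Q) (by omega : p + 1 ≤ q) h
    omega
  have h3 : c * Ur q < Ur (m * (p + 1)) := not_le.mp h2
  have h4 : Ur (m * (p + 1)) ≤ Ur ((2 * m - 1 + 1) * p) := by
    apply Ur_mono
    have : m * (p + 1) ≤ 2 * m * p := by nlinarith
    rw [show 2 * m - 1 + 1 = 2 * m by omega]
    exact this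
  have h5 := Ur_mul (2 * m - 1) p
  rw [show 2 * m - 1 + 1 = 2 * m by omega] at h4 h5
  linarith

/-- the logarithmic sum over the dyadic scales -/
theorem log_sum (a i j : ℕ) (hij : i ≤ j) :
    ∑ n ∈ Finset.Ico i j, (Ur (a * 2 ^ (n + 1)) - Ur (a * 2 ^ n)) / Ur (a * 2 ^ n) ≤
      2 * Real.log (Ur (a * 2 ^ j) / Ur (a * 2 ^ i)) := by
  have key : ∀ n, (Ur (a * 2 ^ (n + 1)) - Ur (a * 2 ^ n)) / Ur (a * 2 ^ n) ≤
      2 * (Real.log (Ur (a * 2 ^ (n + 1))) - Real.log (Ur (a * 2 ^ n))) := by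
    intro n
    have h0 := Ur_pos (a * 2 ^ n)
    have h1 := Ur_pos (a * 2 ^ (n + 1))
    have h2 : Ur (a * 2 ^ n) ≤ Ur (a * 2 ^ (n + 1)) :=
      Ur_mono (Nat.mul_le_mul_left a (Nat.pow_le_pow_right (by norm_num) (by omega)))
    have h3 : Ur (a * 2 ^ (n + 1)) ≤ 2 * Ur (a * 2 ^ n) := by
      have := Ur_two (a * 2 ^ n)
      rwa [show 2 * (a * 2 ^ n) = a * 2 ^ (n + 1) by rw [pow_succ]; ring] at this
    rw [← Real.log_div h1.ne' h0.ne', sub_div, div_self h0.ne']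
    set r := Ur (a * 2 ^ (n + 1)) / Ur (a * 2 ^ n) with hr
    have hr1 : 1 ≤ r := by rw [hr, one_le_div h0]; exact h2
    have hr2 : r ≤ 2 := by rw [hr, div_le_iff₀ h0]; exact h3
    have hr0 : 0 < r := by linarith
    have h4 := Real.one_sub_inv_le_log_of_pos hr0
    have h5 : r - 1 ≤ 2 * (1 - r⁻¹) := by
      have : r * r⁻¹ = 1 := mul_inv_cancel₀ hr0.ne'
      have h6 : (r - 1) * r ≤ 2 * (r - 1) := by nlinarith
      have h7 : r - 1 = ((r - 1) * r) * r⁻¹ := by rw [mul_assoc, this, mul_one]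
      have h8 : 0 < r⁻¹ := inv_pos.mpr hr0
      calc r - 1 = ((r - 1) * r) * r⁻¹ := h7
        _ ≤ (2 * (r - 1)) * r⁻¹ := by gcongr
        _ = 2 * (r * r⁻¹ - r⁻¹) := by ring
        _ = _ := by rw [this]
    linarith
  calc _ ≤ ∑ n ∈ Finset.Ico i j,
        2 * (Real.log (Ur (a * 2 ^ (n + 1))) - Real.log (Ur (a * 2 ^ n))) :=
        Finset.sum_le_sum fun n _ => key n
    _ = 2 * (Real.log (Ur (a * 2 ^ j)) - Real.log (Ur (a * 2 ^ i))) := by
        rw [← Finset.mul_sum]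
        congr 1
        exact Finset.sum_Ico_sub (fun n => Real.log (Ur (a * 2 ^ n))) hij
    _ = _ := by rw [Real.log_div (Ur_pos _).ne' (Ur_pos _).ne']

end Pool.Agent.K1H3.SW
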