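import Pool.Agent.K1H3.SW.Scale
import Pool.Agent.H982R3.Chain

/-!
Interface for the multi-scale chain argument at the critical point `z_c = 1 / μ`.

A strand of scale `j` is a bridge with width in `[16 n, 32 n)`, `n = 2 ^ j`.  The thresholds
`t j` satisfy `2 * t j ≤ 2 ^ j` and are otherwise arbitrary.
-/

set_option linter.unusedSectionVars false

namespace Pool.Agent.K1H3.SW

open H982
open scoped ENNReal

variable [L : H982.Lat]

/-- weight of a word at the critical point -/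
noncomputable def wt (w : List St) : ℝ≥0∞ := zc ^ w.length

/-- `b` can follow a strand ending with `l` which is at least as wide as `b` -/
def Rel (l b : List St) : Prop := ∃ u, IsB u ∧ NCg (u ++ l) b ∧ wd b ≤ wd (u ++ l)

/-- strands of scale `j` -/
def Sc (j : ℕ) (b : List St) : Prop := IsB b ∧ 16 * 2 ^ j ≤ wd b ∧ wd b < 32 * 2 ^ j

/-- `r` is the beginning of a strand of scale `j` which can follow a strand ending with `l` -/
def ER (j : ℕ) (l r : List St) : Prop := ∃ v, IsB v ∧ Sc j (r ++ v) ∧ Rel l (r ++ v)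

/-- free parts: everything beyond is dropped -/
def BX (t : ℕ → ℕ) (j : ℕ) (x : List St) : Prop := IsB x ∧ t j ≤ wd x ∧ wd x < 2 * 2 ^ j

/-- short parts -/
def SX (t : ℕ → ℕ) (j : ℕ) (x : List St) : Prop := IsB x ∧ wd x < t j

/-- wide irreducible pieces -/
def Wi (j : ℕ) (κ : List St) : Prop := Irr κ ∧ 2 ^ j ≤ 2 * wd κ

/-- left parts `κ ++ x` with `x` short: the last wide piece is close to the fold and is kept -/
def WX (t : ℕ → ℕ) (j : ℕ) (p : LL) : Prop := Wi j p.1 ∧ SX t j p.2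

/-- right parts `y ++ κ` with `y` short -/
def WY (t : ℕ → ℕ) (j : ℕ) (p : LL) : Prop := SX t j p.1 ∧ Wi j p.2

/-- uncuttable strands `y ++ κ ++ x` of scale `j`, followed by a strand of scale `i` -/
def UC (t : ℕ → ℕ) (j i : ℕ) (s : L3) : Prop :=
  SX t j s.1 ∧ Irr s.2.1 ∧ 12 * 2 ^ j ≤ wd s.2.1 ∧ SX t i s.2.2 ∧ Sc j (cat3 s)

/-- sum over the free right parts -/
noncomputable def bF (t : ℕ → ℕ) (j : ℕ) (l : List St) : ℝ≥0∞ :=
  ∑' y, ind (BX t j y ∧ ER j l y) * wt y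

/-- sum over the right parts with a kept wide piece -/
noncomputable def wF (t : ℕ → ℕ) (j : ℕ) (l : List St) : ℝ≥0∞ :=
  ∑' p : LL, ind (WY t j p ∧ ER j l (p.1 ++ p.2)) * wt (p.1 ++ p.2)

/-- sum over the short right parts -/
noncomputable def eF (t : ℕ → ℕ) (j : ℕ) (l : List St) : ℝ≥0∞ :=
  ∑' y, ind (SX t j y ∧ ER j l y) * wt y

/-- sums over the left parts -/
noncomputable def sB (t : ℕ → ℕ) (j : ℕ) (Φ : List St → ℝ≥0∞) : ℝ≥0∞ :=
  ∑' x, ind (BX t j x) * (wt x * Φ x)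

noncomputable def sW (t : ℕ → ℕ) (j : ℕ) (Φ : List St → ℝ≥0∞) : ℝ≥0∞ :=
  ∑' p : LL, ind (WX t j p) * (wt (p.1 ++ p.2) * Φ (p.1 ++ p.2))

noncomputable def sS (t : ℕ → ℕ) (j : ℕ) (Φ : List St → ℝ≥0∞) : ℝ≥0∞ :=
  ∑' x, ind (SX t j x) * (wt x * Φ x)

/-- sum over the uncuttable strands following `l` -/
noncomputable def uU (t : ℕ → ℕ) (j i : ℕ) (l : List St) (Φ : List St → ℝ≥0∞) : ℝ≥0∞ :=
  ∑' s : L3, ind (UC t j i s ∧ Rel l (cat3 s)) * (wt (cat3 s) * Φ (cat3 s))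

/-- sum over the strands of scale `j` following `l` -/
noncomputable def aA (j : ℕ) (l : List St) (Φ : List St → ℝ≥0∞) : ℝ≥0∞ :=
  ∑' b, ind (Sc j b ∧ Rel l b) * (wt b * Φ b)

/-- bridges of width at most `2 ^ j` -/
noncomputable def Un (j : ℕ) : ℝ≥0∞ := U (2 ^ j)

/-- normalised sum over the left parts -/
noncomputable def nrm (t : ℕ → ℕ) (j : ℕ) (Φ : List St → ℝ≥0∞) : ℝ≥0∞ :=
  (Un j)⁻¹ * sB t j Φ + sW t j Φ

/-- normalised sum over the right parts -/
noncomputable def phi (t : ℕ → ℕ) (j : ℕ) (l : List St) : ℝ≥0∞ := bF t j l + Un j * wF t j l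

/-- sum over the uncuttable strands and the part following it -/
noncomputable def psi (t : ℕ → ℕ) (j : ℕ) (l : List St) : ℝ≥0∞ :=
  ∑ i ∈ Finset.range (j + 1), uU t j i l (fun b => phi t i b + eF t i b)

/-- admissible functionals: monotone under cutting off the beginning of the strand -/
def Adm (Φ : List St → ℝ≥0∞) : Prop := ∀ u x, IsB u → IsB x → Φ (u ++ x) ≤ Φ x

/-- **the five fold sums** -/
structure FoldSums (t : ℕ → ℕ) (M : ℕ) (C ε : ℝ≥0∞) (s : ℕ → ℕ → ℝ≥0∞) : Prop where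
  ht : ∀ j, 2 * t j ≤ 2 ^ j
  /-- both sides free -/
  BB : ∀ j < M, sB t j (bF t j) ≤ C * Un j
  /-- wide piece close to the fold before it, free after it -/
  WB : ∀ j < M, sW t j (bF t j) ≤ C
  /-- free before the fold, wide piece close to the fold after it -/
  BW : ∀ j < M, sB t j (wF t j) ≤ C
  /-- both sides short -/
  SS : ∀ j < M, sS t j (eF t j) ≤ ε * Un j
  /-- an uncuttable strand between two free parts -/
  BUB : ∀ j < M, ∀ i ≤ j, sB t j (fun l => uU t j i l (bF t i)) ≤ s j i * Un j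

/-- piece D1: the cut lemma -/
def S_CUT : Prop := ∀ t : ℕ → ℕ, (∀ j, 2 * t j ≤ 2 ^ j) → ∀ (j i : ℕ), i ≤ j →
  ∀ (l : List St) (Φ : List St → ℝ≥0∞), Adm Φ →
    aA j l Φ ≤ 1000 * (phi t j l * nrm t i Φ) + uU t j i l Φ

/-- piece D2: decoupling of an uncuttable strand after its beginning or before its end -/
def S_DEC : Prop := ∀ t : ℕ → ℕ, (∀ j, 2 * t j ≤ 2 ^ j) → ∀ (j i : ℕ), i ≤ j →
  ∀ (l : List St) (Φ : List St → ℝ≥0∞), Adm Φ →
    uU t j i l Φ ≤ eF t j l * sW t i Φ ∧ uU t j i l Φ ≤ wF t j l * sS t i Φ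

/-- piece D3: the normalised sums of `phi`, `psi` from the five fold sums -/
def S_BND : Prop := ∀ (t : ℕ → ℕ) (M : ℕ) (C ε : ℝ≥0∞) (s : ℕ → ℕ → ℝ≥0∞),
  FoldSums t M C ε s → 1 ≤ C → ε * (M + 1 : ℕ) ≤ 1 → ∀ j < M,
    nrm t j (phi t j) ≤ 30 * C ∧
    nrm t j (psi t j) ≤ (∑ i ∈ Finset.range (j + 1), s j i) + 200 * C ∧
    ∀ i ≤ j, nrm t j (fun l => uU t j i l (fun b => phi t i b + psi t i b)) ≤
      s j i + 2000 * C ^ 2

end Pool.Agent.K1H3.SW
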